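import Pool.Agent.TH213.SEL.Sel

/-!
# Sections of `Gal(M/F)` for a copy `M` of `F_U`
-/

set_option autoImplicit false
set_option linter.unusedSectionVars false

open IsDedekindDomain NumberField WeierstrassCurve

namespace Pool.Agent.TH213.SEL

open Pool.Agent.TH954 Pool.Agent.TH942 Pool.Agent.W620.SC

/-- continuity of the identification of automorphism groups -/
lemma autCongr_cont {F M M' : Type} [Field F] [Field M] [Field M'] [Algebra F M] [Algebra F M']
    (e : M ≃ₐ[F] M') : Continuous e.autCongr := by
  have h : Continuous e.autCongr.toMonoidHom := by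
    apply continuous_of_continuousAt_one
    intro S hS
    rw [map_one, krullTopology_mem_nhds_one_iff] at hS
    obtain ⟨E, hE, h⟩ := hS
    change e.autCongr ⁻¹' S ∈ nhds 1
    rw [krullTopology_mem_nhds_one_iff]
    refine ⟨E.map (e.symm : M' →ₐ[F] M), finite_map hE _, fun τ hτ => ?_⟩
    apply h
    rw [SetLike.mem_coe, IntermediateField.mem_fixingSubgroup_iff] at hτ ⊢
    intro z hz
    change e (τ (e.symm z)) = z
    rw [hτ (e.symm z) ⟨z, hz, rfl⟩, AlgEquiv.apply_symm_apply]
  exact h

variable {k F Ω M B : Type} [Field k] [CharZero k] [Field F] [Field Ω] [Field M] [Field B]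
  [Algebra k F] [Algebra F Ω] [Algebra k Ω] [IsScalarTower k F Ω] [Algebra F M] [Algebra k M]
  [IsScalarTower k F M] [Algebra k B] [IsAlgClosure k B] [IsAlgClosed Ω] [Algebra.IsAlgebraic F Ω]
  {U : Set (ValuationSubring F)}

/-- the identification of `F_U` with `M` -/
noncomputable def phi (e : M →ₐ[F] Ω) (he : e.fieldRange = unramified F Ω U) :
    unramified F Ω U ≃ₐ[F] M :=
  ((AlgEquiv.ofInjectiveField e).trans (IntermediateField.equivOfEq he)).symm

lemma e_phi (e : M →ₐ[F] Ω) (he : e.fieldRange = unramified F Ω U) (x : unramified F Ω U) :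
    e (phi e he x) = (x : Ω) := by
  obtain ⟨m, rfl⟩ := (phi e he).symm.surjective x
  rw [AlgEquiv.apply_symm_apply]
  rfl

lemma phi_symm (e : M →ₐ[F] Ω) (he : e.fieldRange = unramified F Ω U) (m : M) :
    (((phi e he).symm m : unramified F Ω U) : Ω) = e m := rfl

/-- the identification of the algebraic closures -/
noncomputable def bet (j : B →ₐ[k] Ω) : B ≃ₐ[k] algebraicClosure k Ω :=
  AlgEquiv.ofBijective
    (j.codRestrict (algebraicClosure k Ω).toSubalgebra (fun b => by
      have h : Algebra.IsAlgebraic k B := IsAlgClosure.isAlgebraic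
      exact mem_algebraicClosure_iff.2 ((h.isAlgebraic b).algHom j)) : B →ₐ[k] algebraicClosure k Ω)
    ⟨fun a b h => j.injective (congrArg Subtype.val h), fun x => by
      obtain ⟨z, hz⟩ := alg_range (j.comp (eqv k B : AlgebraicClosure k →ₐ[k] B))
        (mem_algebraicClosure_iff.1 x.2)
      exact ⟨eqv k B z, Subtype.ext hz⟩⟩

lemma bet_apply (j : B →ₐ[k] Ω) (b : B) : ((bet j b : algebraicClosure k Ω) : Ω) = j b := rfl

lemma j_bet_symm (j : B →ₐ[k] Ω) (x : algebraicClosure k Ω) : j ((bet j).symm x) = x := by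
  rw [← bet_apply, AlgEquiv.apply_symm_apply]

/-- the embedding of `B` in `Ω` -/
noncomputable def jj (e : M →ₐ[F] Ω) (t : GalSection k F M B) : B →ₐ[k] Ω :=
  (e.restrictScalars k).comp t.j

/-- a section of `Gal(M/F)` as a `GSection` -/
noncomputable def ofGal (e : M →ₐ[F] Ω) (he : e.fieldRange = unramified F Ω U)
    (t : GalSection k F M B) : GSection k F Ω U where
  toHom := ((phi e he).symm.autCongr.toMonoidHom.comp t.s).comp
    (bet (jj e t)).symm.autCongr.toMonoidHom
  cont := by
    have h1 := autCongr_cont (phi e he).symm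
    have h2 := autCongr_cont (bet (jj e t)).symm
    exact (h1.comp t.cont).comp h2
  compat := by
    intro σ x y hxy
    change e (t.s ((bet (jj e t)).symm.autCongr σ) (phi e he y)) = (σ x : Ω)
    have e0 : phi e he y = t.j ((bet (jj e t)).symm x) := by
      apply e.injective
      change e (phi e he y) = e (t.j ((bet (jj e t)).symm x))
      rw [e_phi, hxy, ← j_bet_symm (jj e t) x]
      rfl
    rw [e0, t.sec]
    have e1 : (bet (jj e t)).symm.autCongr σ ((bet (jj e t)).symm x) =
        (bet (jj e t)).symm (σ x) := by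
      change (bet (jj e t)).symm (σ ((bet (jj e t)) ((bet (jj e t)).symm x))) = _
      rw [AlgEquiv.apply_symm_apply]
    rw [e1]
    exact j_bet_symm (jj e t) (σ x)

lemma fixed_of_ofGal (e : M →ₐ[F] Ω) (he : e.fieldRange = unramified F Ω U)
    (t : GalSection k F M B) {γ : unramified F Ω U} (h : ∀ g, (ofGal e he t).toHom g γ = γ)
    (g : B ≃ₐ[k] B) : t.s g (phi e he γ) = phi e he γ := by
  have h1 := congrArg (phi e he) (h ((bet (jj e t)).autCongr g))
  change phi e he ((phi e he).symm (t.s ((bet (jj e t)).symm.autCongr ((bet (jj e t)).autCongr g))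
    (phi e he γ))) = phi e he γ at h1
  rw [AlgEquiv.apply_symm_apply] at h1
  have e1 : (bet (jj e t)).symm.autCongr ((bet (jj e t)).autCongr g) = g := by
    ext b
    change (bet (jj e t)).symm ((bet (jj e t)) (g ((bet (jj e t)).symm ((bet (jj e t)) b)))) = g b
    rw [AlgEquiv.symm_apply_apply, AlgEquiv.symm_apply_apply]
  rwa [e1] at h1

end Pool.Agent.TH213.SEL
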