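import Pool.Agent.TH213.SEL.Bir
import Pool.Agent.TH213.SEL.Transp

/-!
# Birational sections as sections with respect to the empty set of places
-/

set_option autoImplicit false
set_option linter.unusedSectionVars false

open IsDedekindDomain NumberField WeierstrassCurve

namespace Pool.Agent.TH213.SEL

open Pool.Agent.TH954 Pool.Agent.TH942 Pool.Agent.W620.SC

lemma unram_empty {F Ω : Type} [Field F] [Field Ω] [Algebra F Ω] :
    unramified F Ω (∅ : Set (ValuationSubring F)) = ⊤ := by
  rw [eq_top_iff]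
  intro x _
  exact mem_unramified.2 (fun W hW => absurd hW (Set.notMem_empty _))

lemma id_range {F Ω : Type} [Field F] [Field Ω] [Algebra F Ω] :
    (AlgHom.id F Ω).fieldRange = unramified F Ω (∅ : Set (ValuationSubring F)) := by
  rw [unram_empty, eq_top_iff]
  intro x _
  exact ⟨x, rfl⟩

variable {k : Type} [Field k] [NumberField k] {F Ω B : Type} [Field F] [Field Ω]
  [Field B] [Algebra k F] [Algebra F Ω] [Algebra k Ω] [IsScalarTower k F Ω]
  [Algebra k B] [IsAlgClosure F Ω] [IsAlgClosure k B] [IsAlgClosed Ω] [Algebra.IsAlgebraic F Ω]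

/-- the birational form of `sel_main` -/
theorem bir_main2 {K : Type}
    (hsq : ∀ N : k, (∀ v : HeightOneSpectrum (𝓞 k),
      IsSquare (algebraMap k (v.adicCompletion k) N)) → IsSquare N)
    (hferm : ∀ P : k, P ≠ 0 → P - 1 ≠ 0 → P - 2 ≠ 0 → P - 3 ≠ 0 → IsSquare (P * (P - 1)) →
      IsSquare (P * (P - 2)) → IsSquare (P * (P - 3)) → False)
    (hfin : Finite (sw (-351) (1890 : k)).toAffine.Point) {M0 : ℕ} (hM1 : 1 ≤ M0)
    (hM : ShaKilledBy (sw (-351) (1890 : k)) M0) (s : GalSection k F Ω B)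
    (hloc : ∀ v : HeightOneSpectrum (𝓞 k),
      s.GeometricOver (v.adicCompletion k) (AlgebraicClosure (v.adicCompletion k)))
    (hF : ∃ t : F, Transcendental k t ∧
      Algebra.IsAlgebraic (IntermediateField.adjoin k {t}) F)
    (E : K → k) (hinj : Function.Injective E) (x : F) (hx : ∀ c : k, x ≠ algebraMap k F c) (i : K)
    (hAt : ∀ l l', l ≠ i → l' ≠ i →
      ∃ γ : unramified F Ω (∅ : Set (ValuationSubring F)),
      (∀ g, (ofGal (AlgHom.id F Ω) id_range s).toHom g γ = γ) ∧
      (γ : Ω) ^ 2 = algebraMap F Ω ((x - algebraMap k F (E l)) * (x - algebraMap k F (E l')) *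
        algebraMap k F ((E i - E l) * (E i - E l'))))
    (hCR : ∀ j, j ≠ i → ∃ l l', l ≠ i ∧ l ≠ j ∧ l' ≠ i ∧ l' ≠ j ∧
      ¬ IsSquare ((E i - E l) * (E i - E l') * ((E j - E l) * (E j - E l'))))
    (l : Fin 4 → K) (hl : ∀ j, l j ≠ i) (z δ : k) (hδ : δ ≠ 0)
    (hAP : ∀ j : Fin 4, (E (l j) - E i)⁻¹ = z + (j : ℕ) * δ) :
    ∃ O : ValuationSubring F, (x - algebraMap k F (E i))⁻¹ ∉ O ∧ s.ArisesFrom O ∧
      ∀ O' : ValuationSubring F, s.ArisesFrom O' → O' = O := by
  have hcF : CharZero F := charZero_of_injective_algebraMap (algebraMap k F).injective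
  have hcΩ : CharZero Ω :=
    charZero_of_injective_algebraMap (algebraMap F Ω).injective
  have hcv : ∀ v : HeightOneSpectrum (𝓞 k), CharZero (v.adicCompletion k) := fun v =>
    charZero_of_injective_algebraMap (algebraMap k (v.adicCompletion k)).injective
  choose pl hpl using fun v => hloc v
  have hval := sel_main (F := F) (Ω := Ω) (M := Ω) (B := B) (K := K) hsq hferm hfin hM1 hM
    (∅ : Set (ValuationSubring F)) (fun O hO => absurd hO (Set.notMem_empty _)) (AlgHom.id F Ω)
    id_range.symm.le id_range.le s pl hpl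
    E hinj x hx i (fun l l' h1 h2 => by
      obtain ⟨γ, h3, h4⟩ := hAt l l' h1 h2
      have h5 : phi (AlgHom.id F Ω) id_range γ = (γ : Ω) := e_phi (AlgHom.id F Ω) id_range γ
      refine ⟨phi (AlgHom.id F Ω) id_range γ,
        fixed_of_ofGal (AlgHom.id F Ω) id_range s h3, ?_⟩
      rw [h5, h4, map_mul, map_mul, map_sub, map_sub, ← IsScalarTower.algebraMap_apply,
        ← IsScalarTower.algebraMap_apply, ← IsScalarTower.algebraMap_apply])
    hCR l hl z δ hδ hAP
  refine bir_of_val hF s pl (fun v => ?_) (t := x - algebraMap k F (E i))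
    (sub_ne_zero.2 (hx _)) (fun v => ?_)
  · intro σ τ hστ y
    refine hpl v σ ((eqv k B).autCongr τ) ?_ y _ ⟨y.2, rfl⟩
    intro z c hc
    obtain ⟨y, rfl⟩ := (eqv k B).surjective z
    have e1 : (pl v).val ((toSAct s).j y) ((pl v).iot (toSAct s).j y) := Plc.val_j _ y
    have e2 : (pl v).val ((toSAct s).j (τ y)) ((pl v).iot (toSAct s).j (τ y)) := Plc.val_j _ (τ y)
    have e3 : s.j ((eqv k B).autCongr τ (eqv k B y)) = (toSAct s).j (τ y) := by
      change s.j (eqv k B (τ ((eqv k B).symm (eqv k B y)))) = _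
      rw [AlgEquiv.symm_apply_apply]
      rfl
    have e4 : (pl v).iot (toSAct s).j y = c := e1.unique hc
    rw [e3, ← e4, ← hστ y]
    exact e2
  · rw [map_sub, ← IsScalarTower.algebraMap_apply]
    exact hval v

end Pool.Agent.TH213.SEL
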