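import Mathlib
import Pool.Agent.TH213.SP.Fermat
import Pool.Agent.TH942.Par

/-!
# The elliptic curve `y² = x³ - 351 x + 1890` has only finitely many rational points
-/

set_option autoImplicit false

namespace Pool.Agent.TH213.SEL

open Pool.Agent.TH942 WeierstrassCurve

/-- the rational points of `Y² = (X + 2) (X + 3) (X + 6)` -/
lemma pts24 {X Y : ℚ} (h : Y ^ 2 = (X + 2) * (X + 3) * (X + 6)) :
    X = 0 ∨ X = -2 ∨ X = -3 ∨ X = -4 ∨ X = -6 := by
  by_cases hX : X = 0
  · exact Or.inl hX
  set z : ℚ := (Y - 2 * X - 6) / X with hz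
  have hY : Y = (z + 2) * X + 6 := by
    rw [hz]
    field_simp
    ring
  have hquad : X ^ 2 + 11 * X + 36 = (z + 2) ^ 2 * X + 12 * (z + 2) := by
    have h1 : X * (X ^ 2 + 11 * X + 36 - (z + 2) ^ 2 * X - 12 * (z + 2)) = 0 := by
      rw [hY] at h
      linear_combination -h
    have h2 := (mul_eq_zero.1 h1).resolve_left hX
    linarith
  set v : ℚ := 2 * X - z ^ 2 - 4 * z + 7 with hv
  have hv2 : v ^ 2 = z ^ 4 + 8 * z ^ 3 + 2 * z ^ 2 - 8 * z + 1 := by
    rw [hv]
    linear_combination 4 * hquad
  have hf := Pool.Agent.TH213.SP.four_squares_rat (a := z ^ 2 - 2 * z - 1) (b := z ^ 2 + 1)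
    (c := z ^ 2 + 2 * z - 1) (d := v) (by ring) (by rw [hv2]; ring)
  have h0 : z * ((z - 1) * (z + 1)) = 0 := by linarith
  rcases mul_eq_zero.1 h0 with h1 | h1
  · rw [h1] at hquad
    have h2 : (X + 3) * (X + 4) = 0 := by linarith
    rcases mul_eq_zero.1 h2 with h3 | h3
    · right; right; left; linarith
    · right; right; right; left; linarith
  · rcases mul_eq_zero.1 h1 with h2 | h2
    · have h3 : z = 1 := by linarith
      rw [h3] at hquad
      have h4 : X * (X + 2) = 0 := by linarith
      rcases mul_eq_zero.1 h4 with h5 | h5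
      · exact absurd h5 hX
      · right; left; linarith
    · have h3 : z = -1 := by linarith
      rw [h3] at hquad
      have h4 : (X + 4) * (X + 6) = 0 := by linarith
      rcases mul_eq_zero.1 h4 with h5 | h5
      · right; right; right; left; linarith
      · right; right; right; right; linarith

theorem finite24 : Finite (sw (-351) (1890 : ℚ)).toAffine.Point := by
  let T : Finset (Option (ℚ × ℚ)) :=
    insert none (({33, 15, 6, -3, -21} ×ˢ {0, 162, -162, 54, -54} : Finset (ℚ × ℚ)).image some)
  let f : (sw (-351) (1890 : ℚ)).toAffine.Point → Option (ℚ × ℚ) := fun P =>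
    match P with
    | .zero => none
    | .some x y _ => some (x, y)
  have hf : Function.Injective f := by
    intro P Q h
    match P, Q with
    | .zero, .zero => rfl
    | .zero, .some x y h' => simp [f] at h
    | .some x y h', .zero => simp [f] at h
    | .some x y h', .some x' y' h'' =>
      simp only [f, Option.some.injEq, Prod.mk.injEq] at h
      obtain ⟨rfl, rfl⟩ := h
      rfl
  have hT : ∀ P, f P ∈ T := by
    intro P
    match P with
    | .zero => exact Finset.mem_insert_self _ _
    | .some x y h =>
      apply Finset.mem_insert_of_mem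
      apply Finset.mem_image_of_mem
      have h1 : y ^ 2 = x ^ 3 + -351 * x + 1890 := sw_eqn.1 h.1
      have h2 := pts24 (X := (x - 33) / 9) (Y := y / 27) (by
        rw [div_pow, h1]
        ring)
      rw [Finset.mem_product]
      have key : ∀ c : ℚ, y ^ 2 = c ^ 2 → y = c ∨ y = -c := fun c hc => sq_eq_sq_iff_eq_or_eq_neg.1 hc
      rcases h2 with h2 | h2 | h2 | h2 | h2
      · have hx : x = 33 := by linarith
        subst hx
        rcases key 162 (by rw [h1]; norm_num) with h3 | h3 <;> rw [h3] <;> simp
      · have hx : x = 15 := by linarith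
        subst hx
        rcases key 0 (by rw [h1]; norm_num) with h3 | h3 <;> rw [h3] <;> simp
      · have hx : x = 6 := by linarith
        subst hx
        rcases key 0 (by rw [h1]; norm_num) with h3 | h3 <;> rw [h3] <;> simp
      · have hx : x = -3 := by linarith
        subst hx
        rcases key 54 (by rw [h1]; norm_num) with h3 | h3 <;> rw [h3] <;> simp
      · have hx : x = -21 := by linarith
        subst hx
        rcases key 0 (by rw [h1]; norm_num) with h3 | h3 <;> rw [h3] <;> simp
  exact Finite.of_injective (fun P => (⟨f P, hT P⟩ : T))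
    (fun P Q h => hf (congrArg Subtype.val h))

end Pool.Agent.TH213.SEL
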