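import Mathlib
import Pool.Agent.TH213.SP.Fermat

/-!
# Rational numbers which are squares in all completions; Fermat's theorem
-/

set_option autoImplicit false

namespace Pool.Agent.TH213.SEL

open IsDedekindDomain NumberField

lemma padic_of {N : ℚ} (h : ∀ v : HeightOneSpectrum (𝓞 ℚ),
    IsSquare (algebraMap ℚ (v.adicCompletion ℚ) N)) (p : ℕ) [hp : Fact p.Prime] :
    IsSquare ((N : ℚ_[p])) := by
  have e := (Padic.adicCompletionEquiv (R := 𝓞 ℚ) ⟨p, hp.out⟩).symm
  obtain ⟨r, hr⟩ := h (Rat.HeightOneSpectrum.primesEquiv.symm ⟨p, hp.out⟩)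
  refine ⟨e r, ?_⟩
  have h1 : e (algebraMap ℚ _ N) = algebraMap ℚ ℚ_[p] N := e.toAlgEquiv.commutes N
  rw [← map_mul, ← hr, h1]
  rfl

lemma neg_one_not_sq : ¬ IsSquare (-1 : ℚ_[3]) := by
  rintro ⟨y, hy⟩
  have h1 : ‖y‖ * ‖y‖ = 1 := by
    rw [← norm_mul, ← hy, norm_neg, norm_one]
  have h2 : ‖y‖ ≤ 1 := by nlinarith [norm_nonneg y]
  let Y : ℤ_[3] := ⟨y, h2⟩
  have h3 : Y * Y = -1 := by
    apply Subtype.ext
    push_cast
    exact hy.symm
  have h4 := congrArg PadicInt.toZMod h3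
  rw [map_mul, map_neg, map_one] at h4
  generalize PadicInt.toZMod Y = z at h4
  revert z
  decide

/-- a rational number which is a square in all completions at finite places is a square -/
theorem sq_rat (N : ℚ) (h : ∀ v : HeightOneSpectrum (𝓞 ℚ),
    IsSquare (algebraMap ℚ (v.adicCompletion ℚ) N)) : IsSquare N := by
  by_cases hN : N = 0
  · exact ⟨0, by rw [hN]; ring⟩
  have hn0 : N.num * (N.den : ℤ) ≠ 0 :=
    mul_ne_zero (Rat.num_ne_zero.2 hN) (by exact_mod_cast N.den_ne_zero)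
  obtain ⟨a, b, hb, ha, hab, hsq⟩ := Nat.sq_mul_squarefree_of_pos (Int.natAbs_pos.2 hn0)
  -- the squarefree part with its sign
  obtain ⟨m, hm, hmn⟩ : ∃ m : ℤ, (m = a ∨ m = -a) ∧ N.num * (N.den : ℤ) = m * (b : ℤ) ^ 2 := by
    have habZ : ((N.num * (N.den : ℤ)).natAbs : ℤ) = (b : ℤ) ^ 2 * a := by
      rw [← hab]
      push_cast
      ring
    rcases Int.natAbs_eq (N.num * (N.den : ℤ)) with h1 | h1
    · exact ⟨a, Or.inl rfl, by rw [h1, habZ]; ring⟩
    · exact ⟨-a, Or.inr rfl, by rw [h1, habZ]; ring⟩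
  have hden : (N.den : ℚ) ≠ 0 := by exact_mod_cast N.den_ne_zero
  have hbQ : (b : ℚ) ≠ 0 := by
    have : b ≠ 0 := by
      rintro rfl
      apply hn0
      rw [hmn]
      simp
    exact_mod_cast this
  have hNm : N * (N.den : ℚ) ^ 2 = m * (b : ℚ) ^ 2 := by
    have h1 : (N.num : ℚ) = N * N.den := (Rat.mul_den_eq_num N).symm
    have h2 : (N.num : ℚ) * N.den = m * b ^ 2 := by exact_mod_cast hmn
    rw [h1] at h2
    linear_combination h2
  have hloc : ∀ (p : ℕ) [Fact p.Prime], IsSquare ((m : ℚ_[p])) := by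
    intro p _
    obtain ⟨r, hr⟩ := padic_of h p
    have h1 := congrArg (fun q : ℚ => (q : ℚ_[p])) hNm
    push_cast at h1
    have hb' : (b : ℚ_[p]) ≠ 0 := by exact_mod_cast hbQ
    refine ⟨r * N.den / b, ?_⟩
    field_simp
    rw [hr] at h1
    linear_combination -h1
  have hm0 : m ≠ 0 := by
    rintro rfl
    rw [zero_mul] at hmn
    exact hn0 hmn
  have ha1 : a = 1 := by
    by_contra ha1
    obtain ⟨p, hpp, hpa⟩ := Nat.exists_prime_and_dvd ha1
    have : Fact p.Prime := ⟨hpp⟩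
    obtain ⟨r, hr⟩ := hloc p
    have hr0 : r ≠ 0 := by
      rintro rfl
      rw [mul_zero] at hr
      exact hm0 (by exact_mod_cast hr)
    have h1 := congrArg Padic.valuation hr
    rw [Padic.valuation_mul hr0 hr0, Padic.valuation_intCast] at h1
    have hmsq : Squarefree m := by
      rw [← Int.squarefree_natAbs]
      have : m.natAbs = a := by
        rcases hm with h2 | h2 <;> rw [h2] <;> simp
      rwa [this]
    have hpm : (p : ℤ) ∣ m := by
      rcases hm with h2 | h2
      · rw [h2]; exact Int.natCast_dvd_natCast.2 hpa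
      · rw [h2, dvd_neg]; exact Int.natCast_dvd_natCast.2 hpa
    have h3 : 1 ≤ padicValInt p m := by
      have := (padicValInt_dvd_iff (p := p) 1 m).1 (by rwa [pow_one])
      rcases this with h | h
      · exact absurd h hm0
      · exact h
    have h4 : padicValInt p m ≤ 1 := by
      by_contra h5
      have h6 : (p : ℤ) ^ 2 ∣ m := (padicValInt_dvd_iff 2 m).2 (Or.inr (by omega))
      have h7 : IsUnit (p : ℤ) := hmsq _ (by rwa [← sq])
      exact (Nat.prime_iff_prime_int.1 hpp).not_isUnit h7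
    push_cast at h1
    omega
  have hm1 : m = 1 := by
    rcases hm with h1 | h1
    · rw [h1, ha1]; rfl
    · exfalso
      have : Fact (Nat.Prime 3) := ⟨by norm_num⟩
      apply neg_one_not_sq
      have h2 := hloc 3
      rw [h1, ha1] at h2
      simpa using h2
  refine ⟨b / N.den, ?_⟩
  rw [hm1] at hNm
  field_simp
  push_cast at hNm
  linear_combination hNm

theorem ferm_rat (P : ℚ) (h0 : P ≠ 0) (_h1 : P - 1 ≠ 0) (_h2 : P - 2 ≠ 0) (_h3 : P - 3 ≠ 0)
    (s1 : IsSquare (P * (P - 1))) (s2 : IsSquare (P * (P - 2))) (s3 : IsSquare (P * (P - 3))) :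
    False := by
  have h := Pool.Agent.TH213.SP.ap4_rat (P := P) (Q := P - 1) (R := P - 2) (S := P - 3)
    (by ring) (by ring) h0 s1 s2 s3
  linarith

end Pool.Agent.TH213.SEL
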