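import Pool.Agent.TH213.SEL.Gen

/-!
# The elliptic curves given by four branch points
-/

set_option autoImplicit false
set_option linter.unusedSectionVars false

open IsDedekindDomain NumberField WeierstrassCurve

namespace Pool.Agent.TH213.SEL

open Pool.Agent.TH954 Pool.Agent.TH942 Pool.Agent.W620.SC

/-- The product `D` of the differences `e_l - e_i` for the four indices `l`. -/
def prodD {K : Type} (e : K → ℤ) (i : K) (l : Fin 4 → K) : ℤ := ∏ j, (e (l j) - e i)

/-- The roots of the cubic in the Weierstrass equation of the curve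
`D y² = (x - e_{l 0}) (x - e_{l 1}) (x - e_{l 2}) (x - e_{l 3})`. -/
def root {K : Type} (e : K → ℤ) (i : K) (l : Fin 4 → K) : Fin 3 → ℤ :=
  ![3 * prodD e i l * ((e (l 0) - e (l 1)) * (e (l 0) - e (l 3)) +
      (e (l 0) - e (l 1)) * (e (l 0) - e (l 2)) - 2 * ((e (l 0) - e (l 2)) * (e (l 0) - e (l 3)))),
    3 * prodD e i l * ((e (l 0) - e (l 2)) * (e (l 0) - e (l 3)) +
      (e (l 0) - e (l 1)) * (e (l 0) - e (l 2)) - 2 * ((e (l 0) - e (l 1)) * (e (l 0) - e (l 3)))),
    3 * prodD e i l * ((e (l 0) - e (l 2)) * (e (l 0) - e (l 3)) +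
      (e (l 0) - e (l 1)) * (e (l 0) - e (l 3)) - 2 * ((e (l 0) - e (l 1)) * (e (l 0) - e (l 2))))]

/-- The coefficients `a`, `b` of `(X - r₀) (X - r₁) (X - r₂) = X³ + a X + b`. -/
def coef {K : Type} (e : K → ℤ) (i : K) (l : Fin 4 → K) : ℤ × ℤ :=
  (root e i l 0 * root e i l 1 + root e i l 0 * root e i l 2 + root e i l 1 * root e i l 2,
    -(root e i l 0 * root e i l 1 * root e i l 2))

section pure

variable {R : Type} [Field R]

/-- the identity behind the Weierstrass equation -/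
lemma weier (D f1 f2 f3 t g x e0 : R) (ht : t * (x - e0) = 1)
    (hg : g ^ 2 = D * ((x - e0) * (x - e0 + f1) * (x - e0 + f2) * (x - e0 + f3))) :
    (27 * (D * f1 * f2 * f3) * g * t ^ 2) ^ 2 =
      (9 * D * f1 * f2 * f3 * t + 3 * (D * (f2 * f3 + f1 * f3 + f1 * f2))
        - 3 * D * (f1 * f3 + f1 * f2 - 2 * (f2 * f3))) *
      (9 * D * f1 * f2 * f3 * t + 3 * (D * (f2 * f3 + f1 * f3 + f1 * f2))
        - 3 * D * (f2 * f3 + f1 * f2 - 2 * (f1 * f3))) *
      (9 * D * f1 * f2 * f3 * t + 3 * (D * (f2 * f3 + f1 * f3 + f1 * f2))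
        - 3 * D * (f2 * f3 + f1 * f3 - 2 * (f1 * f2))) := by
  have h1 : t * (x - e0 + f1) = 1 + f1 * t := by linear_combination ht
  have h2 : t * (x - e0 + f2) = 1 + f2 * t := by linear_combination ht
  have h3 : t * (x - e0 + f3) = 1 + f3 * t := by linear_combination ht
  have h4 : g ^ 2 * t ^ 4 = D * ((1 + f1 * t) * (1 + f2 * t) * (1 + f3 * t)) := by
    rw [← h1, ← h2, ← h3, hg]
    have : D * ((x - e0) * (x - e0 + f1) * (x - e0 + f2) * (x - e0 + f3)) * t ^ 4 =
        D * ((t * (x - e0)) * (t * (x - e0 + f1)) * (t * (x - e0 + f2)) *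
          (t * (x - e0 + f3))) := by ring
    rw [this, ht, one_mul]
  have h5 : (27 * (D * f1 * f2 * f3) * g * t ^ 2) ^ 2 =
      729 * (D * f1 * f2 * f3) ^ 2 * (g ^ 2 * t ^ 4) := by ring
  rw [h5, h4]
  ring

end pure

section disc

variable {k : Type} [Field k] [CharZero k]

lemma disc_formula (r0 r1 r2 : k) (h : r0 + r1 + r2 = 0) :
    4 * (r0 * r1 + r0 * r2 + r1 * r2) ^ 3 + 27 * (-(r0 * r1 * r2)) ^ 2 =
      -((r0 - r1) * (r0 - r2) * (r1 - r2)) ^ 2 := by
  have : r2 = -(r0 + r1) := by linear_combination h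
  subst this
  ring

end disc

lemma shortInt_quad {k : Type} [Field k] [NumberField k] {K : Type} {e : K → ℤ}
    (he : Function.Injective e) {i : K} {l : Fin 4 → K} (hl : Function.Injective l)
    (hli : ∀ j, l j ≠ i) :
    ShortInt (sw ((coef e i l).1 : k) ((coef e i l).2 : k)) where
  h1 := rfl
  h2 := rfl
  h3 := rfl
  ia := by
    change IsIntegral ℤ (((coef e i l).1 : ℤ) : k)
    have h := isIntegral_algebraMap (R := ℤ) (A := k) (x := (coef e i l).1)
    rwa [show algebraMap ℤ k (coef e i l).1 = (((coef e i l).1 : ℤ) : k) by simp] at h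
  ib := by
    change IsIntegral ℤ (((coef e i l).2 : ℤ) : k)
    have h := isIntegral_algebraMap (R := ℤ) (A := k) (x := (coef e i l).2)
    rwa [show algebraMap ℤ k (coef e i l).2 = (((coef e i l).2 : ℤ) : k) by simp] at h
  disc := by
    change 4 * (((coef e i l).1 : ℤ) : k) ^ 3 + 27 * (((coef e i l).2 : ℤ) : k) ^ 2 ≠ 0
    have hne : ∀ j j', j ≠ j' → e (l j) - e (l j') ≠ 0 := fun j j' h =>
      sub_ne_zero.2 fun h' => h (hl (he h'))
    have hD : prodD e i l ≠ 0 :=
      Finset.prod_ne_zero_iff.2 fun j _ => sub_ne_zero.2 fun h => hli j (he h)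
    have key : 4 * (coef e i l).1 ^ 3 + 27 * (coef e i l).2 ^ 2 ≠ (0 : ℤ) := by
      have h1 : 4 * (coef e i l).1 ^ 3 + 27 * (coef e i l).2 ^ 2 =
          -((9 * prodD e i l * ((e (l 0) - e (l 3)) * (e (l 2) - e (l 1)))) *
            (9 * prodD e i l * ((e (l 0) - e (l 2)) * (e (l 3) - e (l 1)))) *
            (9 * prodD e i l * ((e (l 0) - e (l 1)) * (e (l 3) - e (l 2))))) ^ 2 := by
        unfold coef root
        simp only [Matrix.cons_val_zero, Matrix.cons_val_one, Matrix.cons_val]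
        ring
      rw [h1, neg_ne_zero]
      refine pow_ne_zero 2 (mul_ne_zero (mul_ne_zero ?_ ?_) ?_) <;>
        refine mul_ne_zero (mul_ne_zero (by norm_num) hD) (mul_ne_zero ?_ ?_) <;>
        exact hne _ _ (by decide)
    exact_mod_cast key

variable {k : Type} [Field k] [NumberField k] {F Ω B : Type} [Field F] [Field Ω]
  [Field B] [Algebra k F] [Algebra F Ω] [Algebra k Ω] [IsScalarTower k F Ω]
  [Algebra k B] [IsAlgClosure F Ω] [IsAlgClosure k B] [IsAlgClosed Ω] [Algebra.IsAlgebraic F Ω]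

theorem bir_quad {K : Type} {e : K → ℤ} (he : Function.Injective e) {i : K} {l : Fin 4 → K}
    (hl : Function.Injective l) (hli : ∀ j, l j ≠ i)
    (hfin : Finite (sw ((coef e i l).1 : k) ((coef e i l).2 : k)).toAffine.Point)
    {M0 : ℕ} (hM1 : 1 ≤ M0) (hM : ShaKilledBy (sw ((coef e i l).1 : k) ((coef e i l).2 : k)) M0)
    (s : GalSection k F Ω B)
    (hloc : ∀ v : HeightOneSpectrum (𝓞 k),
      s.GeometricOver (v.adicCompletion k) (AlgebraicClosure (v.adicCompletion k)))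
    (hF : ∃ t : F, Transcendental k t ∧
      Algebra.IsAlgebraic (IntermediateField.adjoin k {t}) F)
    (x : F) (hx : ∀ c : k, x ≠ algebraMap k F c)
    (hAt : ∀ m m', m ≠ i → m' ≠ i →
      ∃ γ : unramified F Ω (∅ : Set (ValuationSubring F)),
      (∀ g, (ofGal (AlgHom.id F Ω) id_range s).toHom g γ = γ) ∧
      (γ : Ω) ^ 2 = algebraMap F Ω ((x - (e m : F)) * (x - (e m' : F)) *
        (((e i - e m) * (e i - e m') : ℤ) : F))) :
    ∃ O : ValuationSubring F, s.ArisesFrom O ∧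
      ∀ O' : ValuationSubring F, s.ArisesFrom O' → O' = O := by
  have hcF : CharZero F := charZero_of_injective_algebraMap (algebraMap k F).injective
  have hx' : ∀ c : ℤ, x - (c : F) ≠ 0 := by
    intro c h
    apply hx (c : k)
    rw [map_intCast]
    exact sub_eq_zero.1 h
  have hne : ∀ j j', j ≠ j' → e (l j) - e (l j') ≠ 0 := fun j j' h =>
    sub_ne_zero.2 fun h' => h (hl (he h'))
  have hD : prodD e i l ≠ 0 :=
    Finset.prod_ne_zero_iff.2 fun j _ => sub_ne_zero.2 fun h => hli j (he h)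
  obtain ⟨γ1, h1, h1'⟩ := hAt (l 0) (l 1) (hli 0) (hli 1)
  obtain ⟨γ2, h2, h2'⟩ := hAt (l 2) (l 3) (hli 2) (hli 3)
  have h1f := fixed_of_ofGal (AlgHom.id F Ω) id_range s h1
  have h2f := fixed_of_ofGal (AlgHom.id F Ω) id_range s h2
  have e1 : phi (AlgHom.id F Ω) id_range γ1 = (γ1 : Ω) := e_phi (AlgHom.id F Ω) id_range γ1
  have e2 : phi (AlgHom.id F Ω) id_range γ2 = (γ2 : Ω) := e_phi (AlgHom.id F Ω) id_range γ2
  rw [e1] at h1f
  rw [e2] at h2f
  -- the numbers
  set D : ℤ := prodD e i l with hDdef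
  set f1 : ℤ := e (l 0) - e (l 1) with hf1
  set f2 : ℤ := e (l 0) - e (l 2) with hf2
  set f3 : ℤ := e (l 0) - e (l 3) with hf3
  have hf10 : f1 ≠ 0 := hne _ _ (by decide)
  have hf20 : f2 ≠ 0 := hne _ _ (by decide)
  have hf30 : f3 ≠ 0 := hne _ _ (by decide)
  set t : F := (x - (e (l 0) : F))⁻¹ with ht
  have ht0 : x - (e (l 0) : F) ≠ 0 := hx' _
  set XF : F := 9 * D * f1 * f2 * f3 * t + 3 * (D * (f2 * f3 + f1 * f3 + f1 * f2)) with hXF
  set Y : Ω := 27 * ((D : Ω) * f1 * f2 * f3) * ((γ1 : Ω) * (γ2 : Ω)) *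
    (algebraMap F Ω t) ^ 2 with hY
  have hcst : (9 * D * f1 * f2 * f3 : F) ≠ 0 := by
    have h9 : (9 : F) ≠ 0 := by norm_num
    exact mul_ne_zero (mul_ne_zero (mul_ne_zero (mul_ne_zero h9 (by exact_mod_cast hD))
      (by exact_mod_cast hf10)) (by exact_mod_cast hf20)) (by exact_mod_cast hf30)
  refine bir_pt (shortInt_quad he hl hli) hfin hM1 hM s hloc hF XF (fun c hc => ?_) Y
    (fun g => ?_) ?_
  · -- nonconstant
    have h3 : t = algebraMap k F ((c - 3 * (D * (f2 * f3 + f1 * f3 + f1 * f2))) /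
        (9 * D * f1 * f2 * f3)) := by
      rw [map_div₀, map_sub, ← hc]
      simp only [map_mul, map_add, map_ofNat, map_intCast]
      rw [eq_div_iff hcst, hXF]
      ring
    apply hx ((e (l 0) : k) + ((c - 3 * (D * (f2 * f3 + f1 * f3 + f1 * f2))) /
        (9 * D * f1 * f2 * f3))⁻¹)
    rw [map_add, map_inv₀, ← h3, ht, inv_inv, map_intCast]
    ring
  · rw [hY, map_mul, map_mul, map_mul, map_mul, map_mul, map_mul, map_mul, map_pow, h1f g, h2f g,
      (s.s g).commutes]
    simp only [map_ofNat, map_intCast]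
  · have hg : ((γ1 : Ω) * (γ2 : Ω)) ^ 2 = (D : Ω) *
        ((algebraMap F Ω x - (e (l 0) : Ω)) * (algebraMap F Ω x - (e (l 0) : Ω) + f1) *
          (algebraMap F Ω x - (e (l 0) : Ω) + f2) * (algebraMap F Ω x - (e (l 0) : Ω) + f3)) := by
      rw [mul_pow, h1', h2', hf1, hf2, hf3, hDdef, prodD, Fin.prod_univ_four]
      simp only [map_mul, map_sub, map_intCast]
      push_cast
      ring
    have htt : algebraMap F Ω t * (algebraMap F Ω x - (e (l 0) : Ω)) = 1 := by
      have h4 : t * (x - (e (l 0) : F)) = 1 := inv_mul_cancel₀ ht0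
      have h5 := congrArg (algebraMap F Ω) h4
      rwa [map_mul, map_sub, map_intCast, map_one] at h5
    have h6 := weier (D : Ω) (f1 : Ω) (f2 : Ω) (f3 : Ω) _ _ _ _ htt hg
    rw [hY, h6, hXF]
    simp only [map_mul, map_add, map_ofNat, map_intCast, coef, root, Matrix.cons_val_zero,
      Matrix.cons_val_one, Matrix.cons_val, ← hDdef, ← hf1, ← hf2, ← hf3]
    push_cast
    ring

end Pool.Agent.TH213.SEL
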