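import Pool.Agent.TH213.SEL.Place

/-!
# The local points of a section of type `i` are the branch point `i`
-/

set_option autoImplicit false
set_option linter.unusedSectionVars false

open IsDedekindDomain NumberField WeierstrassCurve

namespace Pool.Agent.TH213.SEL

open Pool.Agent.TH954 Pool.Agent.TH942 Pool.Agent.W620.SC

lemma smallRank_of_finite {k : Type} [Field k] (E : WeierstrassCurve k)
    (h : Finite E.toAffine.Point) : SmallRank E := by
  classical
  left
  have h1 : Module.rank ℤ E.toAffine.Point = 0 := by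
    rw [rank_eq_zero_iff]
    intro x
    obtain ⟨n, hn, hx⟩ := isOfFinAddOrder_iff_nsmul_eq_zero.1 (isOfFinAddOrder_of_finite x)
    exact ⟨n, by exact_mod_cast hn.ne', by exact_mod_cast hx⟩
  rw [h1]
  simp

lemma shortInt_ex {k : Type} [Field k] [NumberField k] : ShortInt (sw (-351) (1890 : k)) where
  h1 := rfl
  h2 := rfl
  h3 := rfl
  ia := by
    change IsIntegral ℤ (-351 : k)
    exact_mod_cast isIntegral_algebraMap (R := ℤ) (A := k) (x := -351)
  ib := by
    change IsIntegral ℤ (1890 : k)
    have h := isIntegral_algebraMap (R := ℤ) (A := k) (x := 1890)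
    rwa [show algebraMap ℤ k 1890 = 1890 by simp] at h
  disc := by
    change 4 * (-351 : k) ^ 3 + 27 * (1890 : k) ^ 2 ≠ 0
    norm_num

variable {k : Type} [Field k] [NumberField k] {F Ω M B : Type} [Field F] [Field Ω] [Field M]
  [Field B] [Algebra k F] [Algebra F Ω] [Algebra k Ω] [IsScalarTower k F Ω] [Algebra F M]
  [Algebra k M] [IsScalarTower k F M] [Algebra k B] [IsAlgClosure F Ω] [IsAlgClosure k B]

open scoped Classical in
theorem sel_main {K : Type}
    (hsq : ∀ N : k, (∀ v : HeightOneSpectrum (𝓞 k),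
      IsSquare (algebraMap k (v.adicCompletion k) N)) → IsSquare N)
    (hferm : ∀ P : k, P ≠ 0 → P - 1 ≠ 0 → P - 2 ≠ 0 → P - 3 ≠ 0 → IsSquare (P * (P - 1)) →
      IsSquare (P * (P - 2)) → IsSquare (P * (P - 3)) → False)
    (hfin : Finite (sw (-351) (1890 : k)).toAffine.Point) {M0 : ℕ} (hM1 : 1 ≤ M0)
    (hM : ShaKilledBy (sw (-351) (1890 : k)) M0)
    (U : Set (ValuationSubring F)) (hU : ∀ O ∈ U, ∀ c : k, algebraMap k F c ∈ O)
    (e : M →ₐ[F] Ω) (he : unramified F Ω U ≤ e.fieldRange)
    (he' : e.fieldRange ≤ unramified F Ω U) (s : GalSection k F M B)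
    (p : ∀ v : HeightOneSpectrum (𝓞 k), Plc k M (AlgebraicClosure (v.adicCompletion k)))
    (hp : ∀ v, s.GivenBy (v.adicCompletion k) (p v))
    (E : K → k) (hinj : Function.Injective E) (x : F) (hx : ∀ c : k, x ≠ algebraMap k F c) (i : K)
    (hAt : ∀ l l', l ≠ i → l' ≠ i → ∃ γ : M, (∀ g, s.s g γ = γ) ∧
      γ ^ 2 = (algebraMap F M x - algebraMap k M (E l)) * (algebraMap F M x - algebraMap k M (E l')) *
        algebraMap k M ((E i - E l) * (E i - E l')))
    (hCR : ∀ j, j ≠ i → ∃ l l', l ≠ i ∧ l ≠ j ∧ l' ≠ i ∧ l' ≠ j ∧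
      ¬ IsSquare ((E i - E l) * (E i - E l') * ((E j - E l) * (E j - E l'))))
    (l : Fin 4 → K) (hl : ∀ j, l j ≠ i) (z δ : k) (hδ : δ ≠ 0)
    (hAP : ∀ j : Fin 4, (E (l j) - E i)⁻¹ = z + (j : ℕ) * δ) :
    ∀ v, (p v).val (algebraMap F M x - algebraMap k M (E i)) 0 := by
  have hcM : CharZero M := charZero_of_injective_algebraMap (algebraMap k M).injective
  have hcv' : ∀ v : HeightOneSpectrum (𝓞 k), CharZero (AlgebraicClosure (v.adicCompletion k)) :=
    fun v => charZero_of_injective_algebraMap
      (algebraMap k (AlgebraicClosure (v.adicCompletion k))).injective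
  set X : M := algebraMap F M x with hX
  have hXs : ∀ g, s.s g X = X := fun g => (s.s g).commutes x
  have hks : ∀ g (c : k), s.s g (algebraMap k M c) = algebraMap k M c := by
    intro g c
    rw [IsScalarTower.algebraMap_apply k F M]
    exact (s.s g).commutes _
  have hXc : ∀ c : k, X - algebraMap k M c ≠ 0 := by
    intro c h
    rw [sub_eq_zero, IsScalarTower.algebraMap_apply k F M] at h
    exact hx c ((algebraMap F M).injective h)
  have hne : ∀ j, E (l j) - E i ≠ 0 := fun j => sub_ne_zero.2 fun h => hl j (hinj h)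
  have hδM : algebraMap k M δ ≠ 0 := by
    rwa [Ne, map_eq_zero]
  set u : M := ((X - algebraMap k M (E i))⁻¹ - algebraMap k M z) / algebraMap k M δ with hu
  have hus : ∀ g, s.s g u = u := by
    intro g
    rw [hu, map_div₀, map_sub, map_inv₀, map_sub, hXs, hks, hks, hks]
  have hXu : X = algebraMap k M (E i) + (algebraMap k M z + algebraMap k M δ * u)⁻¹ := by
    have h1 : algebraMap k M z + algebraMap k M δ * u = (X - algebraMap k M (E i))⁻¹ := by
      rw [hu]
      field_simp
      ring
    rw [h1, inv_inv]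
    ring
  have huj : ∀ j : Fin 4, u - ((j : ℕ) : M) = (X - algebraMap k M (E (l j))) /
      (algebraMap k M δ * (X - algebraMap k M (E i)) * algebraMap k M (E i - E (l j))) := by
    intro j
    have h1 : algebraMap k M (z + (j : ℕ) * δ) = algebraMap k M ((E (l j) - E i)⁻¹) := by
      rw [hAP]
    rw [map_add, map_mul, map_natCast, map_inv₀, map_sub] at h1
    have h2 : algebraMap k M (E (l j)) - algebraMap k M (E i) ≠ 0 := by
      rw [← map_sub, Ne, map_eq_zero]
      exact hne j
    have h3 : algebraMap k M (E i) - algebraMap k M (E (l j)) ≠ 0 := by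
      rw [← neg_sub]
      exact neg_ne_zero.2 h2
    have h4 := hXc (E i)
    rw [hu, map_sub]
    have h5 : algebraMap k M z = (algebraMap k M (E (l j)) - algebraMap k M (E i))⁻¹ -
        ((j : ℕ) : M) * algebraMap k M δ := by
      rw [← h1]
      ring
    rw [h5]
    field_simp
    ring
  have hu0 : ∀ j : Fin 4, u - ((j : ℕ) : M) ≠ 0 := by
    intro j
    rw [huj j]
    refine div_ne_zero (hXc _) (mul_ne_zero (mul_ne_zero hδM (hXc _)) ?_)
    rw [Ne, map_eq_zero, ← neg_sub, neg_eq_zero]
    exact hne j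
  -- the square roots
  have hh : ∀ j : Fin 4, ∃ h : M, (∀ g, s.s g h = h) ∧ h ^ 2 = u * (u - ((j : ℕ) : M)) := by
    intro j
    obtain ⟨γ, hγ, hγ2⟩ := hAt (l 0) (l j) (hl 0) (hl j)
    refine ⟨γ / (algebraMap k M δ * (X - algebraMap k M (E i)) *
      algebraMap k M ((E i - E (l 0)) * (E i - E (l j)))), fun g => ?_, ?_⟩
    · rw [map_div₀, map_mul, map_mul, map_sub, hγ, hks, hXs, hks, hks]
    · have h0 := huj 0
      rw [Fin.val_zero, Nat.cast_zero, sub_zero] at h0
      rw [huj j, h0, div_pow, hγ2]
      have h1 : algebraMap k M (E i - E (l 0)) ≠ 0 := by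
        rw [Ne, map_eq_zero, ← neg_sub, neg_eq_zero]
        exact hne 0
      have h2 : algebraMap k M (E i - E (l j)) ≠ 0 := by
        rw [Ne, map_eq_zero, ← neg_sub, neg_eq_zero]
        exact hne j
      have h4 := hXc (E i)
      rw [map_mul]
      field_simp
  obtain ⟨g1, hg1, hg1'⟩ := hh 1
  obtain ⟨g2, hg2, hg2'⟩ := hh 2
  obtain ⟨g3, hg3, hg3'⟩ := hh 3
  have hu00 : u ≠ 0 := by
    have := hu0 0
    rwa [Fin.val_zero, Nat.cast_zero, sub_zero] at this
  have hu3 : u - 3 ≠ 0 := by
    have := hu0 3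
    exact_mod_cast this
  have e1 : g1 ^ 2 = u * (u - 1) := by
    rw [Fin.val_one, Nat.cast_one] at hg1'
    exact hg1'
  have e2 : g2 ^ 2 = u * (u - 2) := by exact_mod_cast hg2'
  have e3 : g3 ^ 2 = u * (u - 3) := by exact_mod_cast hg3'
  set w : M := g1 * g2 * g3 / u with hw
  have hws : ∀ g, s.s g w = w := by
    intro g
    rw [hw, map_div₀, map_mul, map_mul, hg1, hg2, hg3, hus]
  have hw2 : w ^ 2 = u * (u - 1) * (u - 2) * (u - 3) := by
    rw [hw, div_pow, mul_pow, mul_pow, e1, e2, e3]
    field_simp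
  -- the point of the elliptic curve
  have hD : 4 * (-351 : k) ^ 3 + 27 * (1890 : k) ^ 2 ≠ 0 := shortInt_ex.disc
  have hns : ((sw (-351) (1890 : k)).baseChange M).toAffine.Nonsingular
      (54 / (u - 3) + 33) (162 * w / (u - 3) ^ 2) := by
    rw [base_eq]
    apply sw_nonsing
    · simp only [map_neg, map_ofNat]
      norm_num
    · simp only [map_neg, map_ofNat]
      rw [div_pow, mul_pow, hw2]
      field_simp
      ring
  set P : ((sw (-351) (1890 : k)).baseChange M).toAffine.Point := .some _ _ hns with hP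
  have hPfix : ∀ g : B ≃ₐ[k] B, pm (sw (-351) (1890 : k))
      ((s.s g : M →ₐ[F] M).restrictScalars k) P = P := by
    intro g
    obtain ⟨h', e'⟩ := pm_some (E := sw (-351) (1890 : k))
      ((s.s g : M →ₐ[F] M).restrictScalars k) hns
    rw [hP, e', Affine.Point.some.injEq]
    have hof : ∀ n : ℕ, s.s g (n : M) = n := fun n => map_natCast _ n
    constructor
    · change s.s g (54 / (u - 3) + 33) = 54 / (u - 3) + 33
      rw [map_add, map_div₀, map_sub, hus]
      simp only [map_ofNat]
    · change s.s g (162 * w / (u - 3) ^ 2) = 162 * w / (u - 3) ^ 2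
      rw [map_div₀, map_mul, map_pow, map_sub, hus, hws]
      simp only [map_ofNat]
  obtain ⟨y, -, hy⟩ := et_fix (F := F) (Ω := Ω) shortInt_ex
    (finProp_of shortInt_ex (smallRank_of_finite _ hfin) 1) hM1 hM ∅
    (fun f hf => absurd hf (Set.notMem_empty f)) (Set.toFinite _) U hU e he he'
    (fun _ : Fin 1 => P) (fun f hf => absurd hf (Set.notMem_empty f)) s (fun g _ => hPfix g) p hp
  -- finite values are impossible
  have hno : ∀ u0 : k, ¬ ∀ v, (p v).val u
      (algebraMap k (AlgebraicClosure (v.adicCompletion k)) u0) := by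
    intro u0 hval
    by_cases hj : ∃ j : Fin 4, u0 = (j : ℕ)
    · obtain ⟨j, hj⟩ := hj
      have hXv : ∀ v, (p v).val X
          (algebraMap k (AlgebraicClosure (v.adicCompletion k)) (E (l j))) := by
        intro v
        have h1 := (Plc.val_alg (pl := p v) z).add ((Plc.val_alg (pl := p v) δ).mul (hval v))
        rw [← map_mul, ← map_add, hj, mul_comm δ, ← hAP j] at h1
        have h2 := (Plc.val_alg (pl := p v) (E i)).add (h1.inv (by
          rw [Ne, map_eq_zero]
          exact inv_ne_zero (hne j)))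
        rw [← hXu, ← map_inv₀, inv_inv, ← map_add, add_sub_cancel] at h2
        exact h2
      obtain ⟨m, m', h1, h2, h3, h4, h5⟩ := hCR (l j) (hl j)
      obtain ⟨γ, hγ, hγ2⟩ := hAt m m' h1 h3
      apply h5
      apply hsq
      intro v
      apply local_square (hp v) hγ
      rw [hγ2]
      have h6 := (((hXv v).sub (Plc.val_alg (E m))).mul ((hXv v).sub (Plc.val_alg (E m')))).mul
        (Plc.val_alg (pl := p v) ((E i - E m) * (E i - E m')))
      rw [← map_sub, ← map_sub, ← map_mul, ← map_mul] at h6
      rw [mul_comm ((E i - E m) * (E i - E m'))]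
      exact h6
    · push Not at hj
      have h0 : u0 ≠ 0 := by
        have := hj 0
        rwa [Fin.val_zero, Nat.cast_zero] at this
      have h1 : u0 - 1 ≠ 0 := by
        have := hj 1
        rw [Fin.val_one, Nat.cast_one] at this
        exact sub_ne_zero.2 this
      have h2 : u0 - 2 ≠ 0 := sub_ne_zero.2 (by exact_mod_cast hj 2)
      have h3 : u0 - 3 ≠ 0 := sub_ne_zero.2 (by exact_mod_cast hj 3)
      have key : ∀ (j : ℕ) (g : M), (∀ g', s.s g' g = g) → g ^ 2 = u * (u - (j : M)) →
          IsSquare (u0 * (u0 - (j : k))) := by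
        intro j g hg hg2
        apply hsq
        intro v
        apply local_square (hp v) hg
        rw [hg2, map_mul, map_sub, map_natCast]
        exact (hval v).mul ((hval v).sub (Plc.val_natCast j))
      refine hferm u0 h0 h1 h2 h3 ?_ ?_ ?_
      · exact_mod_cast key 1 g1 hg1 (by exact_mod_cast e1)
      · exact_mod_cast key 2 g2 hg2 (by exact_mod_cast e2)
      · exact_mod_cast key 3 g3 hg3 (by exact_mod_cast e3)
  -- the two kinds of rational points
  match hy0 : y 0 with
  | .zero =>
    exfalso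
    apply hno 3
    intro v
    have h1 := hy v 0
    rw [hy0] at h1
    have h2 := val_u_zero (p v) hu3 hw2 h1
    have h3 : (p v).val (3 : M) (3 : AlgebraicClosure (v.adicCompletion k)) := by
      exact_mod_cast Plc.val_natCast (pl := p v) 3
    have h4 := h2.add h3
    rw [sub_add_cancel, zero_add] at h4
    rw [map_ofNat]
    exact h4
  | .some a b h =>
    have hval : ∀ v, (p v).val (u - 3)⁻¹
        (algebraMap k (AlgebraicClosure (v.adicCompletion k)) ((a - 33) / 54)) := by
      intro v
      have h1 := hy v 0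
      rw [hy0] at h1
      exact val_u (p v) hu3 hw2 h1
    by_cases hr : (a - 33) / 54 = 0
    · intro v
      have h1 := hval v
      rw [hr, map_zero] at h1
      have h3 : (p v).val (3 : M) (3 : AlgebraicClosure (v.adicCompletion k)) := by
        exact_mod_cast Plc.val_natCast (pl := p v) 3
      have h4 := (((Plc.val_alg (pl := p v) z).add ((Plc.val_alg (pl := p v) δ).mul h3)).mul
        h1).add (Plc.val_alg (pl := p v) δ)
      rw [mul_zero, zero_add] at h4
      have h5 := h1.mul (h4.inv (by rwa [Ne, map_eq_zero]))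
      rw [zero_mul] at h5
      have h6 : (u - 3)⁻¹ * ((algebraMap k M z + algebraMap k M δ * 3) * (u - 3)⁻¹ +
          algebraMap k M δ)⁻¹ = X - algebraMap k M (E i) := by
        have h7 : (algebraMap k M z + algebraMap k M δ * 3) * (u - 3)⁻¹ + algebraMap k M δ =
            (algebraMap k M z + algebraMap k M δ * u) * (u - 3)⁻¹ := by
          field_simp
          ring
        rw [h7, mul_inv, inv_inv, mul_comm, mul_assoc, mul_inv_cancel₀ hu3, mul_one]
        rw [eq_sub_iff_add_eq, add_comm]
        exact hXu.symm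
      rw [h6] at h5
      exact h5
    · exfalso
      apply hno (3 + ((a - 33) / 54)⁻¹)
      intro v
      have h1 := (hval v).inv (by rwa [Ne, map_eq_zero])
      rw [inv_inv] at h1
      have h3 : (p v).val (3 : M) (3 : AlgebraicClosure (v.adicCompletion k)) := by
        exact_mod_cast Plc.val_natCast (pl := p v) 3
      have h4 := h3.add h1
      rw [add_sub_cancel] at h4
      rw [map_add, map_ofNat, map_inv₀]
      exact h4

end Pool.Agent.TH213.SEL
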