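import Pool.Agent.TH954.SBir2
import Pool.Agent.TH213.SEL.Sel

/-!
# Birational sections whose local points are zeros of a function
-/

set_option autoImplicit false
set_option linter.unusedSectionVars false

open IsDedekindDomain NumberField WeierstrassCurve

namespace Pool.Agent.TH213.SEL

open Pool.Agent.TH954 Pool.Agent.TH942 Pool.Agent.W620.SC

variable {K : Type} [Field K] [NumberField K] {F Ω B : Type} [Field F] [Field Ω] [Field B]
  [Algebra K F] [Algebra F Ω] [Algebra K Ω] [Algebra K B] [IsScalarTower K F Ω]
  [IsAlgClosure F Ω] [IsAlgClosure K B]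

open scoped Classical in
/-- A section of the absolute Galois group of the function field of a curve which is given by places
over all the completions, at which one and the same function `t ≠ 0` vanishes, comes from exactly one
rational place, and `t` vanishes there. (The argument is that of `Pool.Agent.TH954.bir_of_fin`.) -/
theorem bir_of_val
    (hF : ∃ t : F, Transcendental K t ∧
      Algebra.IsAlgebraic (IntermediateField.adjoin K {t}) F)
    (s : GalSection K F Ω B)
    (pl : ∀ v : HeightOneSpectrum (𝓞 K), Plc K Ω (AlgebraicClosure (v.adicCompletion K)))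
    (hpl : ∀ v, GeoPlc (toSAct s) (pl v))
    {t : F} (ht0 : t ≠ 0) (htv : ∀ v, (pl v).val (algebraMap F Ω t) 0) :
    ∃ O : ValuationSubring F, t⁻¹ ∉ O ∧ s.ArisesFrom O ∧
      ∀ O' : ValuationSubring F, s.ArisesFrom O' → O' = O := by
  have hΩ1 : IsAlgClosed Ω := IsAlgClosure.isAlgClosed F
  have hΩ2 : Algebra.IsAlgebraic F Ω := IsAlgClosure.isAlgebraic
  have hcF : CharZero F := charZero_of_injective_algebraMap (algebraMap K F).injective
  have hcΩ : CharZero Ω :=
    charZero_of_injective_algebraMap (algebraMap F Ω).injective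
  have hcv : ∀ v : HeightOneSpectrum (𝓞 K), CharZero (v.adicCompletion K) := fun v =>
    charZero_of_injective_algebraMap (algebraMap K (v.adicCompletion K)).injective
  have hcv' : ∀ v : HeightOneSpectrum (𝓞 K), CharZero (AlgebraicClosure (v.adicCompletion K)) :=
    fun v => charZero_of_injective_algebraMap
      (algebraMap (v.adicCompletion K) (AlgebraicClosure (v.adicCompletion K))).injective
  set A := toSAct s with hA
  have hAF : ∀ (τ : AlgebraicClosure K ≃ₐ[K] AlgebraicClosure K) (x : F),
      A.s τ (algebraMap F Ω x) = algebraMap F Ω x :=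
    fun τ x => (s.s ((eqv K B).autCongr τ)).commutes x
  have ht00 : algebraMap F Ω t ≠ 0 := by rwa [Ne, map_eq_zero]
  have hx0W : ∀ v, algebraMap F Ω t⁻¹ ∉ (pl v).W := by
    intro v hmem
    rw [map_inv₀] at hmem
    obtain ⟨c, hc⟩ := Plc.val_of_mem hmem
    have h1 := (htv v).mul hc
    rw [mul_inv_cancel₀ ht00, zero_mul] at h1
    have h2 : (pl v).val (1 : Ω) 1 := by
      have := Plc.val_natCast (pl := pl v) 1
      rwa [Nat.cast_one, Nat.cast_one] at this
    exact one_ne_zero (h2.unique h1)
  have hfinV : ∀ x, FinVal A pl x := by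
    refine finVal_of_alg A pl (t := algebraMap F Ω t) ht00 htv (fun x hx => ?_)
    exact (alg_adjoin_of_dim hF x hx).isAlgebraic _
  obtain ⟨U, hU⟩ := exists_ultra (A := A) (pl := pl) hpl
  have hfixF : ∀ x : F, algebraMap F Ω x ∈ A.fix := fun x τ => hAF τ x
  have hst : ∀ (g : B ≃ₐ[K] B) (x : Ω), x ∈ limW pl U → s.s g x ∈ limW pl U := by
    intro g x hx
    rw [← toSAct_s s]
    exact limW_stable hU hfinV _ hx
  have hnt : t⁻¹ ∉ (limW pl U).comap (algebraMap F Ω) := by
    intro h3
    obtain ⟨v, hv⟩ := (mem_limW.1 (ValuationSubring.mem_comap.1 h3)).exists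
    exact hx0W v hv
  refine ⟨(limW pl U).comap (algebraMap F Ω), hnt, ⟨?_, ?_, ?_, limW pl U, rfl,
    fun g x => ⟨fun h => ?_, hst g x⟩⟩, ?_⟩
  · intro htop
    apply hnt
    rw [htop]
    exact ValuationSubring.mem_top t⁻¹
  · intro c
    rw [ValuationSubring.mem_comap, ← IsScalarTower.algebraMap_apply]
    exact alg_mem_limW c
  · intro a ha
    obtain ⟨c, hc⟩ := exists_value hU (hfixF a) (hfinV _) ha
    refine ⟨c, (ValuationSubring.mem_nonunits_iff_or _).2 ?_⟩
    by_cases h0 : a - algebraMap K F c = 0
    · exact Or.inl h0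
    · right
      intro h3
      have h4 := mem_limW.1 (ValuationSubring.mem_comap.1 h3)
      obtain ⟨v, hv1, hv2⟩ := (hc.and h4).exists
      have h5 : (pl v).val (algebraMap F Ω (a - algebraMap K F c)) 0 := by
        have := hv1.sub (Plc.val_alg (pl := pl v) c)
        rw [sub_self] at this
        rw [map_sub, ← IsScalarTower.algebraMap_apply]
        exact this
      rw [map_inv₀] at hv2
      refine Plc.notMem_of_val_inv (pl := pl v)
        (x := (algebraMap F Ω (a - algebraMap K F c))⁻¹)
        (inv_ne_zero ((map_ne_zero _).2 h0)) ?_ hv2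
      rw [inv_inv]
      exact h5
  · have h3 := hst g⁻¹ _ h
    have h4 : s.s g⁻¹ (s.s g x) = x := by
      change (s.s g⁻¹ * s.s g) x = x
      rw [← map_mul, inv_mul_cancel, map_one]
      rfl
    rwa [h4] at h3
  · rintro O ⟨-, hO2, hO3, W, hW, hO4⟩
    refine unique_ring A hfixF O _ hO2 ?_ hO3 ?_ W (limW pl U) hW rfl
      (fun τ x hx => (hO4 _ x).2 hx) (fun τ x hx => limW_stable hU hfinV τ hx)
    · intro c
      rw [ValuationSubring.mem_comap, ← IsScalarTower.algebraMap_apply]
      exact alg_mem_limW c
    · intro a ha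
      obtain ⟨c, hc⟩ := exists_value hU (hfixF a) (hfinV _) ha
      refine ⟨c, (ValuationSubring.mem_nonunits_iff_or _).2 ?_⟩
      by_cases h0 : a - algebraMap K F c = 0
      · exact Or.inl h0
      · right
        intro h3
        have h4 := mem_limW.1 (ValuationSubring.mem_comap.1 h3)
        obtain ⟨v, hv1, hv2⟩ := (hc.and h4).exists
        have h5 : (pl v).val (algebraMap F Ω (a - algebraMap K F c)) 0 := by
          have := hv1.sub (Plc.val_alg (pl := pl v) c)
          rw [sub_self] at this
          rw [map_sub, ← IsScalarTower.algebraMap_apply]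
          exact this
        rw [map_inv₀] at hv2
        refine Plc.notMem_of_val_inv (pl := pl v)
          (x := (algebraMap F Ω (a - algebraMap K F c))⁻¹)
          (inv_ne_zero ((map_ne_zero _).2 h0)) ?_ hv2
        rw [inv_inv]
        exact h5

end Pool.Agent.TH213.SEL
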