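import Pool.Agent.TH954.SEt2

/-!
# Points over the maximal unramified extension which are fixed by a section
-/

set_option autoImplicit false
set_option linter.unusedSectionVars false

open IsDedekindDomain NumberField WeierstrassCurve MvPolynomial

namespace Pool.Agent.TH213.SEL

open Pool.Agent.TH954 Pool.Agent.TH942 Pool.Agent.W620.SC

section unram

variable {K F Ω : Type} [Field K] [CharZero K] [Field F] [Field Ω] [Algebra K F] [Algebra F Ω]
  [Algebra K Ω] [IsScalarTower K F Ω] [IsAlgClosed Ω] {a b : K}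

open scoped Classical in
/-- division points of points over `F_U` are defined over `F_U` -/
theorem exists_div_unram' (hD : 4 * a ^ 3 + 27 * b ^ 2 ≠ 0) (j : AlgebraicClosure K →ₐ[K] Ω)
    (U : Set (ValuationSubring F)) (hU : ∀ O ∈ U, ∀ c : K, algebraMap K F c ∈ O)
    {M : Type} [Field M] [Algebra F M] [Algebra K M] [IsScalarTower K F M] (e : M →ₐ[F] Ω)
    (he : unramified F Ω U ≤ e.fieldRange) (he' : e.fieldRange ≤ unramified F Ω U)
    (P : ((sw a b).baseChange M).toAffine.Point) {N : ℕ} (hN : 1 ≤ N) :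
    ∃ Q : ((sw a b).baseChange M).toAffine.Point, N • Q = P := by
  have hcΩ : CharZero Ω := charZero_of_injective_algebraMap (algebraMap K Ω).injective
  obtain ⟨Q, hQ⟩ := exists_nsmul_base hD Ω hN
    (pm (sw a b) (e.restrictScalars K) P)
  have hfix : ∀ W : ValuationSubring Ω, W.comap (algebraMap F Ω) ∈ U →
      ∀ σ ∈ inertia F Ω W,
        pm (sw a b) ((σ : Ω →ₐ[F] Ω).restrictScalars K) Q = Q := by
    intro W hW σ hσ
    refine fixed_div hD j W (fun c => ?_) _ (fun x hx => inertia_spec hσ hx) hN Q ?_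
    · have := hU _ hW c
      rw [ValuationSubring.mem_comap, ← IsScalarTower.algebraMap_apply] at this
      exact this
    · rw [hQ, pm_pm]
      congr 2
      apply AlgHom.ext
      intro x
      exact (mem_unramified.1 (he' ⟨x, rfl⟩)) W hW σ hσ
  have hex : ∃ Q' : ((sw a b).baseChange M).toAffine.Point,
      pm (sw a b) (e.restrictScalars K) Q' = Q := by
    match Q, hQ, hfix with
    | .zero, _, _ => exact ⟨.zero, rfl⟩
    | .some x y h, _, hfix =>
      have hxy : ∀ W : ValuationSubring Ω, W.comap (algebraMap F Ω) ∈ U →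
          ∀ σ ∈ inertia F Ω W, σ x = x ∧ σ y = y := by
        intro W hW σ hσ
        have h1 := hfix W hW σ hσ
        obtain ⟨h', e⟩ := pm_some (E := sw a b) ((σ : Ω →ₐ[F] Ω).restrictScalars K) h
        rw [e, Affine.Point.some.injEq] at h1
        exact h1
      exact exists_pt_of_mem _ h
        (he (mem_unramified.2 (fun W hW σ hσ => (hxy W hW σ hσ).1)))
        (he (mem_unramified.2 (fun W hW σ hσ => (hxy W hW σ hσ).2)))
  obtain ⟨Q', hQ'⟩ := hex
  refine ⟨Q', ?_⟩
  apply pm_injective (E := sw a b) (e.restrictScalars K)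
  rw [map_nsmul, hQ', hQ]

end unram

variable {K : Type} [Field K] [NumberField K] {F Ω M B : Type} [Field F] [Field Ω] [Field M]
  [Field B] [Algebra K F] [Algebra F Ω] [Algebra K Ω] [IsScalarTower K F Ω] [Algebra F M]
  [Algebra K M] [IsScalarTower K F M] [Algebra K B] [IsAlgClosure F Ω] [IsAlgClosure K B]

open scoped Classical in
theorem et_fix {a b : K} (hE : ShortInt (sw a b)) {n : ℕ}
    (hfin : FinProp a b (⊤ : AddSubgroup (SPt a b)) n) {M0 : ℕ} (hM1 : 1 ≤ M0)
    (hM : ShaKilledBy (sw a b) M0)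
    (S : Set (MvPolynomial (Fin n × Fin 3) K)) (hS : ∀ f ∈ S, ∃ d, MultiHom d f)
    (hX : {y : Fin n → SPt a b | OnX S (fun i => crd (y i))}.Finite)
    (U : Set (ValuationSubring F)) (hU : ∀ O ∈ U, ∀ c : K, algebraMap K F c ∈ O)
    (e : M →ₐ[F] Ω) (he : unramified F Ω U ≤ e.fieldRange)
    (he' : e.fieldRange ≤ unramified F Ω U)
    (P' : Fin n → ((sw a b).baseChange M).toAffine.Point)
    (hP'S : OnX S (fun i => crd (P' i))) (s : GalSection K F M B)
    (hfix : ∀ (g : B ≃ₐ[K] B) i,
      pm (sw a b) ((s.s g : M →ₐ[F] M).restrictScalars K) (P' i) = P' i)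
    (p : ∀ v : HeightOneSpectrum (𝓞 K), Plc K M (AlgebraicClosure (v.adicCompletion K)))
    (hp : ∀ v, s.GivenBy (v.adicCompletion K) (p v)) :
    ∃ x : Fin n → SPt a b, OnX S (fun i => crd (x i)) ∧
      ∀ v i, (p v).Spec (crd (P' i))
        (fun j => algebraMap K (AlgebraicClosure (v.adicCompletion K)) (crd (x i) j)) := by
  have hΩ1 : IsAlgClosed Ω := IsAlgClosure.isAlgClosed F
  have hΩ2 : Algebra.IsAlgebraic F Ω := IsAlgClosure.isAlgebraic
  have hMalg : Algebra.IsAlgebraic F M := Algebra.IsAlgebraic.of_injective e e.injective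
  have hD : 4 * a ^ 3 + 27 * b ^ 2 ≠ 0 := hE.disc
  have hcΩ : CharZero Ω := charZero_of_injective_algebraMap (algebraMap K Ω).injective
  have hcv : ∀ v : HeightOneSpectrum (𝓞 K), CharZero (v.adicCompletion K) := fun v =>
    charZero_of_injective_algebraMap (algebraMap K (v.adicCompletion K)).injective
  have hcv' : ∀ v : HeightOneSpectrum (𝓞 K), CharZero (AlgebraicClosure (v.adicCompletion K)) :=
    fun v => charZero_of_injective_algebraMap
      (algebraMap (v.adicCompletion K) (AlgebraicClosure (v.adicCompletion K))).injective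
  set A := toSAct s with hA
  have hpl : ∀ v, GeoPlc A (p v) := by
    intro v σ τ hστ x
    refine hp v σ ((eqv K B).autCongr τ) ?_ x _ ⟨x.2, rfl⟩
    intro z c hc
    obtain ⟨y, rfl⟩ := (eqv K B).surjective z
    have e1 : (p v).val (A.j y) ((p v).iot A.j y) := Plc.val_j _ y
    have e2 : (p v).val (A.j (τ y)) ((p v).iot A.j (τ y)) := Plc.val_j _ (τ y)
    have e3 : s.j ((eqv K B).autCongr τ (eqv K B y)) = A.j (τ y) := by
      change s.j (eqv K B (τ ((eqv K B).symm (eqv K B y)))) = _
      rw [AlgEquiv.symm_apply_apply]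
      rfl
    have e4 : (p v).iot A.j y = c := e1.unique hc
    rw [e3, ← e4, ← hστ y]
    exact e2
  have hP'f : ∀ i τ, A.pt a b τ (P' i) = P' i := by
    intro i τ
    have h4 : A.pt a b τ (P' i) =
        pm (sw a b) ((s.s ((eqv K B).autCongr τ) : M →ₐ[F] M).restrictScalars K) (P' i) := by
      unfold SAct.pt
      congr 2
    rw [h4]
    exact hfix _ i
  choose red h1 h2 using fun v => exists_redM (p v) hD
  obtain ⟨x, hxS, hx, -⟩ := points_eq3 hE hfin hM1 hM S hS hX A P' hP'S hP'f
    (fun N hN i => exists_div_unram' hD ((e.restrictScalars K).comp A.j) U hU e he he' (P' i) hN)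
    (fun N hN T hT => torsion_mem_sub hD (e.restrictScalars K) A.j N hN T hT) p hpl red h1 h2
  refine ⟨x, hxS, fun v i => ?_⟩
  obtain ⟨u, hu0, hu⟩ := red_crd (pl := p v) (red := red v) (map_zero (red v)) (h1 v) (h2 v)
    (P' i)
  refine ⟨u, hu0, fun j => ?_⟩
  obtain ⟨h3, h4⟩ := hu j
  rw [hx v i, crd_incl] at h4
  change (p v).val (u * crd (P' i) j)
    (algebraMap K (AlgebraicClosure (v.adicCompletion K)) (crd (x i) j))
  rw [← h4]
  exact ⟨h3, rfl⟩

end Pool.Agent.TH213.SEL
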