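import Pool.Agent.TH213.SEL.Et

/-!
# Values at places of functions fixed by a section
-/

set_option autoImplicit false
set_option linter.unusedSectionVars false

open IsDedekindDomain NumberField WeierstrassCurve

namespace Pool.Agent.TH213.SEL

open Pool.Agent.TH954 Pool.Agent.TH942

section place

variable {k M C : Type} [Field k] [Field M] [Field C] [Algebra k M] [Algebra k C]

/-- the value of the coordinate `u` at a place, for a point of `Y² = X³ - 351 X + 1890` with
`X = 54 / (u - 3) + 33` which specialises to a rational point -/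
lemma val_u [CharZero k] [CharZero M] [CharZero C] (pl : Plc k M C) {u w : M} (hu3 : u - 3 ≠ 0)
    (_hw : w ^ 2 = u * (u - 1) * (u - 2) * (u - 3)) {a b : k} {h}
    (hs : pl.Spec ![54 / (u - 3) + 33, 162 * w / (u - 3) ^ 2, 1]
      (fun j => algebraMap k C (crd (Affine.Point.some (W' := (sw (-351) (1890 : k)).toAffine)
        a b h) j))) :
    pl.val (u - 3)⁻¹ (algebraMap k C ((a - 33) / 54)) := by
  obtain ⟨c, hc0, hc⟩ := hs
  have h0 := hc 0
  have h2 := hc 2
  have e0 : crd (Affine.Point.some (W' := (sw (-351) (1890 : k)).toAffine) a b h) 0 = a := rfl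
  have e2 : crd (Affine.Point.some (W' := (sw (-351) (1890 : k)).toAffine) a b h) 2 = 1 := rfl
  simp only [e0] at h0
  simp only [e2, map_one] at h2
  change pl.val (c * (54 / (u - 3) + 33)) _ at h0
  change pl.val (c * 1) _ at h2
  rw [mul_one] at h2
  have h3 := h0.mul (h2.inv one_ne_zero)
  rw [inv_one, mul_one] at h3
  have e3 : c * (54 / (u - 3) + 33) * c⁻¹ = 54 / (u - 3) + 33 := by field_simp
  rw [e3] at h3
  have h33 : pl.val (33 : M) (33 : C) := by exact_mod_cast Plc.val_natCast (pl := pl) 33
  have h54 : pl.val (54 : M) (54 : C) := by exact_mod_cast Plc.val_natCast (pl := pl) 54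
  have hC54 : (54 : C) ≠ 0 := by norm_num
  have hM54 : (54 : M) ≠ 0 := by norm_num
  have hk54 : (54 : k) ≠ 0 := by norm_num
  have h4 := (h3.sub h33).mul (h54.inv hC54)
  have e4 : (54 / (u - 3) + 33 - 33) * (54 : M)⁻¹ = (u - 3)⁻¹ := by field_simp; ring
  have e5 : (algebraMap k C a - 33) * (54 : C)⁻¹ = algebraMap k C ((a - 33) / 54) := by
    rw [map_div₀, map_sub]
    simp only [map_ofNat]
    rw [div_eq_mul_inv]
  rw [e4, e5] at h4
  exact h4

lemma val_u_zero [CharZero k] [CharZero M] [CharZero C] (pl : Plc k M C) {u w : M} (hu3 : u - 3 ≠ 0)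
    (hw : w ^ 2 = u * (u - 1) * (u - 2) * (u - 3))
    (hs : pl.Spec ![54 / (u - 3) + 33, 162 * w / (u - 3) ^ 2, 1]
      (fun j => algebraMap k C (crd (Affine.Point.zero : (sw (-351) (1890 : k)).toAffine.Point) j))) :
    pl.val (u - 3) 0 := by
  obtain ⟨c, hc0, hc⟩ := hs
  have h1 := hc 1
  have h2 := hc 2
  have e1 : crd (Affine.Point.zero : (sw (-351) (1890 : k)).toAffine.Point) 1 = 1 := rfl
  have e2 : crd (Affine.Point.zero : (sw (-351) (1890 : k)).toAffine.Point) 2 = 0 := rfl
  simp only [e1, map_one] at h1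
  simp only [e2, map_zero] at h2
  change pl.val (c * (162 * w / (u - 3) ^ 2)) _ at h1
  change pl.val (c * 1) _ at h2
  rw [mul_one] at h2
  have h33 : pl.val (33 : M) (33 : C) := by exact_mod_cast Plc.val_natCast (pl := pl) 33
  have hn : (u - 3)⁻¹ ∉ pl.W := by
    intro hmem
    obtain ⟨r, hr⟩ := Plc.val_of_mem hmem
    -- then `Y` is in the valuation ring
    have hY : 162 * w / (u - 3) ^ 2 ∈ pl.W := by
      apply Plc.mem_of_pow_mem (n := 2) two_pos
      have e3 : (162 * w / (u - 3) ^ 2) ^ 2 =
          162 ^ 2 * ((1 + 3 * (u - 3)⁻¹) * (1 + 2 * (u - 3)⁻¹) * (1 + (u - 3)⁻¹)) := by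
        rw [div_pow, mul_pow, hw]
        field_simp
        ring
      rw [e3]
      have hint : ∀ n : ℕ, (n : M) ∈ pl.W := fun n => (Plc.val_natCast (pl := pl) n).mem
      have h162 : (162 : M) ∈ pl.W := by exact_mod_cast hint 162
      have h3' : (3 : M) ∈ pl.W := by exact_mod_cast hint 3
      have h2' : (2 : M) ∈ pl.W := by exact_mod_cast hint 2
      exact mul_mem (pow_mem h162 2) (mul_mem (mul_mem (add_mem (one_mem _) (mul_mem h3' hmem))
        (add_mem (one_mem _) (mul_mem h2' hmem))) (add_mem (one_mem _) hmem))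
    obtain ⟨y, hy⟩ := Plc.val_of_mem hY
    have h5 := h2.mul hy
    rw [zero_mul] at h5
    exact one_ne_zero (h1.unique h5)
  have h6 := Plc.val_inv_of_notMem hn
  rwa [inv_inv] at h6

end place

section fixed

variable {k : Type} [Field k] [NumberField k] {F M B : Type} [Field F] [Field M]
  [Field B] [Algebra k F] [Algebra F M]
  [Algebra k M] [IsScalarTower k F M] [Algebra k B] [IsAlgClosure k B]

/-- the value of a fixed element lies in the completion -/
lemma value_fixed {s : GalSection k F M B} {v : HeightOneSpectrum (𝓞 k)}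
    {p : Plc k M (AlgebraicClosure (v.adicCompletion k))}
    (hp : s.GivenBy (v.adicCompletion k) p) {z : M} (hz : ∀ g, s.s g z = z)
    {c : AlgebraicClosure (v.adicCompletion k)} (hc : p.val z c) :
    ∃ c' : v.adicCompletion k, algebraMap _ _ c' = c := by
  have hcv : CharZero (v.adicCompletion k) :=
    charZero_of_injective_algebraMap (algebraMap k (v.adicCompletion k)).injective
  have h1 : c ∈ Set.range (algebraMap (v.adicCompletion k)
      (AlgebraicClosure (v.adicCompletion k))) := by
    rw [InfiniteGalois.mem_range_algebraMap_iff_fixed]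
    intro σ
    set j : AlgebraicClosure k →ₐ[k] M := s.j.comp (eqv k B : AlgebraicClosure k →ₐ[k] B) with hj
    obtain ⟨τ, hτ⟩ := exists_compat (p.iot j) σ
    have h2 := hp σ ((eqv k B).autCongr τ) (fun z' c' hc' => by
      obtain ⟨y, rfl⟩ := (eqv k B).surjective z'
      have e1 : p.val (j y) (p.iot j y) := Plc.val_j _ y
      have e2 : p.val (j (τ y)) (p.iot j (τ y)) := Plc.val_j _ (τ y)
      have e3 : s.j ((eqv k B).autCongr τ (eqv k B y)) = j (τ y) := by
        change s.j (eqv k B (τ ((eqv k B).symm (eqv k B y)))) = _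
        rw [AlgEquiv.symm_apply_apply]
        rfl
      have e4 : p.iot j y = c' := e1.unique hc'
      rw [e3, ← e4, ← hτ y]
      exact e2) z c hc
    rw [hz] at h2
    exact h2.unique hc
  obtain ⟨c', hc'⟩ := h1
  exact ⟨c', hc'⟩

/-- if `z ^ 2` has the rational value `N` everywhere, then `N` is a square in all completions -/
lemma local_square {s : GalSection k F M B} {v : HeightOneSpectrum (𝓞 k)}
    {p : Plc k M (AlgebraicClosure (v.adicCompletion k))}
    (hp : s.GivenBy (v.adicCompletion k) p) {z : M} (hz : ∀ g, s.s g z = z) {N : k}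
    (hc : p.val (z ^ 2) (algebraMap k (AlgebraicClosure (v.adicCompletion k)) N)) :
    IsSquare (algebraMap k (v.adicCompletion k) N) := by
  obtain ⟨c, hc1⟩ := Plc.val_of_mem (Plc.mem_of_pow_mem two_pos hc.mem)
  obtain ⟨c', hc'⟩ := value_fixed hp hz hc1
  refine ⟨c', ?_⟩
  have h1 := (hc1.pow 2).unique hc
  rw [← hc'] at h1
  apply (algebraMap (v.adicCompletion k) (AlgebraicClosure (v.adicCompletion k))).injective
  rw [← IsScalarTower.algebraMap_apply, ← h1, map_mul, sq]

end fixed

end Pool.Agent.TH213.SEL
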